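import Pool.Agent.W998.KG.Stm

set_option autoImplicit false

namespace Pool.Agent.W648.KG.INN

open Pool.Agent.Results.MP_633d19_co.SmallDegree
open Pool.Agent.Results.MP_633d19_co.SmallDegree.MGraph
open Pool.Agent.W998.KG

theorem lv_or_in {V E : Type} {G : MGraph V E} {k l : ℕ} {y : ℕ → V}
    (inj : ∀ i < l, ∀ j < l, y i = y j → i = j) {c : E → Option (Fin k)} {a : Fin k} {i : ℕ}
    (hi : i < l) (hm : ¬ G.Miss c (y i) a) : Lv G l y c a i ∨ In G l y c a i := by
  unfold Miss at hm
  push Not at hm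
  obtain ⟨e, he, h1⟩ := hm
  by_cases h : ∃ j < l, j ≠ i ∧ y j ∈ G.ends e
  · obtain ⟨j, hj, hji, hje⟩ := h
    right
    refine ⟨e, h1, j, hj, hji, ?_⟩
    have hne : y i ≠ y j := fun hh => hji (inj i hi j hj hh).symm
    exact (Sym2.mem_and_mem_iff hne).1 ⟨he, hje⟩
  · left
    refine ⟨e, he, h1, fun j hj hje => ?_⟩
    by_contra hji
    exact h ⟨j, hj, hji, hje⟩

theorem card_erase {l j : ℕ} (hj : j < l) : l ≤ ((Finset.range l).erase j).card + 1 := by
  rw [Finset.card_erase_of_mem (Finset.mem_range.2 hj), Finset.card_range]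
  omega

theorem main : PartEXI → PartINN := by
  intro hEXI V E _ _ G k l y f α β hl hodd hG hcl hex c h a haα haβ
  by_cases hmiss : ∃ j < l, G.Miss c (y j) a
  · obtain ⟨j, hj, hmj⟩ := hmiss
    refine ⟨(Finset.range l).erase j, fun i hi => ?_, card_erase hj⟩
    rw [Finset.mem_erase, Finset.mem_range] at hi
    obtain ⟨hij, hil⟩ := hi
    refine ⟨hil, ?_⟩
    have hni : ¬ G.Miss c (y i) a := by
      intro hmi
      rcases lt_or_gt_of_ne hij with h1 | h1
      · exact State.disj hl hodd hG hex (j - i) c h i j h1 hj rfl a haα haβ hmi hmj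
      · exact State.disj hl hodd hG hex (i - j) c h j i h1 hil rfl a haα haβ hmj hmi
    rcases lv_or_in h.inj hil hni with h1 | h1
    · exact absurd h1 (hcl c h a ⟨j, hj, hmj⟩ i hil)
    · exact h1
  · push Not at hmiss
    by_cases hlv : ∃ j < l, Lv G l y c a j
    · obtain ⟨j, hj, hlj⟩ := hlv
      refine ⟨(Finset.range l).erase j, fun i hi => ?_, card_erase hj⟩
      rw [Finset.mem_erase, Finset.mem_range] at hi
      obtain ⟨hij, hil⟩ := hi
      refine ⟨hil, ?_⟩
      rcases lv_or_in h.inj hil (hmiss i hil) with h1 | h1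
      · exact absurd (hEXI hl hodd hG hcl hex h hmiss i hil j hj h1 hlj) hij
      · exact h1
    · push Not at hlv
      refine ⟨Finset.range l, fun i hi => ?_, by rw [Finset.card_range]; omega⟩
      rw [Finset.mem_range] at hi
      refine ⟨hi, ?_⟩
      rcases lv_or_in h.inj hi (hmiss i hi) with h1 | h1
      · exact absurd h1 (hlv i hi)
      · exact h1

end Pool.Agent.W648.KG.INN

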